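import Mathlib

/-!
# A second moment criterion for limsup sets of full measure
-/

set_option autoImplicit false
set_option linter.unusedSectionVars false

open MeasureTheory Set Filter Topology

namespace Pool.Agent.Q3.RandK

section

variable {X : Type*} [MeasurableSpace X] {μ : Measure X} [IsProbabilityMeasure μ]
  {N : ℕ → Set X} {q s : ℕ → ℝ} {A : Set ℕ}

open Classical in
/-- Centred indicator. -/
noncomputable def gk (N : ℕ → Set X) (q : ℕ → ℝ) (A : Set ℕ) (k : ℕ) (x : X) : ℝ :=
  if k ∈ A then (N k).indicator (fun _ => (1 : ℝ)) x - q k else 0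

open Classical in
/-- The weights. -/
noncomputable def sg (s : ℕ → ℝ) (A : Set ℕ) (k : ℕ) : ℝ := if k ∈ A then s k else 0

theorem gk_meas (hN : ∀ k, MeasurableSet (N k)) (k : ℕ) : Measurable (gk N q A k) := by
  unfold gk
  split_ifs
  · exact (measurable_const.indicator (hN k)).sub_const _
  · exact measurable_const

theorem gk_bound (hq : ∀ k ∈ A, 0 ≤ q k ∧ q k ≤ 1) (k : ℕ) (x : X) : |gk N q A k x| ≤ 1 := by
  unfold gk Set.indicator
  by_cases h : k ∈ A
  · have := hq k h
    rw [if_pos h, abs_le]
    split_ifs <;> constructor <;> linarith [this.1, this.2]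
  · rw [if_neg h]; simp

theorem gk_int (hN : ∀ k, MeasurableSet (N k)) (hq : ∀ k ∈ A, 0 ≤ q k ∧ q k ≤ 1) (k : ℕ) :
    Integrable (gk N q A k) μ :=
  Integrable.of_bound (gk_meas hN k).aestronglyMeasurable 1
    (Eventually.of_forall fun x => by rw [Real.norm_eq_abs]; exact gk_bound hq k x)

theorem gk_mul_int (hN : ∀ k, MeasurableSet (N k)) (hq : ∀ k ∈ A, 0 ≤ q k ∧ q k ≤ 1) (k m : ℕ) :
    Integrable (fun x => gk N q A k x * gk N q A m x) μ :=
  Integrable.of_bound ((gk_meas hN k).mul (gk_meas hN m)).aestronglyMeasurable 1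
    (Eventually.of_forall fun x => by
      rw [Real.norm_eq_abs, abs_mul]
      exact mul_le_one₀ (gk_bound hq k x) (abs_nonneg _) (gk_bound hq m x))

theorem gk_mul (hN : ∀ k, MeasurableSet (N k)) {k m : ℕ} (hk : k ∈ A) (hm : m ∈ A) :
    ∫ x, gk N q A k x * gk N q A m x ∂μ = μ.real (N k ∩ N m) - q m * μ.real (N k) -
      q k * μ.real (N m) + q k * q m := by
  have hexp : ∀ x, gk N q A k x * gk N q A m x =
      (N k ∩ N m).indicator (fun _ => (1 : ℝ)) x - q m * (N k).indicator (fun _ => (1 : ℝ)) x -
      q k * (N m).indicator (fun _ => (1 : ℝ)) x + q k * q m := by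
    intro x
    unfold gk
    rw [if_pos hk, if_pos hm]
    simp only [Set.indicator, Set.mem_inter_iff]
    by_cases h1 : x ∈ N k <;> by_cases h2 : x ∈ N m <;> simp [h1, h2] <;> ring
  have int1 : ∀ t : Set X, MeasurableSet t →
      Integrable (fun x => t.indicator (fun _ => (1 : ℝ)) x) μ :=
    fun t ht => (integrable_const 1).indicator ht
  have iind : ∀ t : Set X, MeasurableSet t → ∫ x, t.indicator (fun _ => (1 : ℝ)) x ∂μ = μ.real t := by
    intro t ht; rw [integral_indicator ht]; simp
  simp_rw [hexp]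
  rw [integral_add, integral_sub, integral_sub, integral_const_mul, integral_const_mul,
    iind _ ((hN k).inter (hN m)), iind _ (hN k), iind _ (hN m)]
  · simp
  · exact int1 _ ((hN k).inter (hN m))
  · exact (int1 _ (hN k)).const_mul _
  · exact (int1 _ ((hN k).inter (hN m))).sub ((int1 _ (hN k)).const_mul _)
  · exact (int1 _ (hN m)).const_mul _
  · exact ((int1 _ ((hN k).inter (hN m))).sub ((int1 _ (hN k)).const_mul _)).sub
      ((int1 _ (hN m)).const_mul _)
  · exact integrable_const _

theorem second_moment (hN : ∀ k, MeasurableSet (N k)) (hq : ∀ k ∈ A, 0 ≤ q k ∧ q k ≤ 1)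
    (hs : ∀ k ∈ A, s k / 2 ≤ 1 - q k ∧ 1 - q k ≤ s k)
    (h1 : ∀ m ∈ A, |μ.real (N m) - q m| ≤ s m / (m + 1))
    (h2 : ∀ k ∈ A, ∀ m ∈ A, k < m → |μ.real (N k ∩ N m) - q m * μ.real (N k)| ≤ s m / (m + 1))
    (n : ℕ) :
    ∫ x, (∑ k ∈ Finset.range n, gk N q A k x) ^ 2 ∂μ ≤ 7 * ∑ k ∈ Finset.range n, sg s A k := by
  induction n with
  | zero => simp
  | succ n ih =>
    have hGint : Integrable (fun x => (∑ k ∈ Finset.range n, gk N q A k x) ^ 2) μ := by
      have : (fun x => (∑ k ∈ Finset.range n, gk N q A k x) ^ 2) =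
          fun x => ∑ k ∈ Finset.range n, ∑ m ∈ Finset.range n, gk N q A k x * gk N q A m x := by
        ext x
        rw [sq, Finset.sum_mul_sum]
      rw [this]
      exact integrable_finsetSum _ fun k _ => integrable_finsetSum _ fun m _ => gk_mul_int hN hq k m
    have hexp : ∀ x, (∑ k ∈ Finset.range (n + 1), gk N q A k x) ^ 2 =
        (∑ k ∈ Finset.range n, gk N q A k x) ^ 2 +
        ∑ k ∈ Finset.range n, 2 * (gk N q A k x * gk N q A n x) + gk N q A n x * gk N q A n x := by
      intro x
      rw [Finset.sum_range_succ, ← Finset.mul_sum, ← Finset.sum_mul]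
      ring
    have hcross : Integrable (fun x => ∑ k ∈ Finset.range n, 2 * (gk N q A k x * gk N q A n x)) μ :=
      integrable_finsetSum _ fun k _ => (gk_mul_int hN hq k n).const_mul 2
    simp_rw [hexp]
    have e := integral_add' (hGint.add hcross) (gk_mul_int (μ := μ) hN hq n n)
    rw [integral_add' hGint hcross] at e
    refine le_trans (le_of_eq e) ?_
    rw [integral_finsetSum _ fun k _ => (gk_mul_int hN hq k n).const_mul 2, Finset.sum_range_succ]
    by_cases hn : n ∈ A
    · obtain ⟨hq0, hq1⟩ := hq n hn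
      obtain ⟨hs0, hs1⟩ := hs n hn
      have hsn : 0 ≤ s n := by linarith
      have e1 := h1 n hn
      have hnr : (0 : ℝ) < (n : ℝ) + 1 := by positivity
      have hdiv : s n / (n + 1) ≤ s n := div_le_self hsn (by linarith [Nat.cast_nonneg (α := ℝ) n])
      have hd0 : 0 ≤ s n / (n + 1) := by positivity
      have hsum : ∑ k ∈ Finset.range n, ∫ x, 2 * (gk N q A k x * gk N q A n x) ∂μ ≤ 4 * s n := by
        calc ∑ k ∈ Finset.range n, ∫ x, 2 * (gk N q A k x * gk N q A n x) ∂μ
            ≤ ∑ _k ∈ Finset.range n, 4 * (s n / (n + 1)) := by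
              refine Finset.sum_le_sum fun k hk => ?_
              rw [integral_const_mul]
              by_cases hkA : k ∈ A
              · rw [gk_mul hN hkA hn]
                have e2 := h2 k hkA n hn (Finset.mem_range.1 hk)
                obtain ⟨hk0, hk1⟩ := hq k hkA
                rw [abs_le] at e1 e2
                have e3 : q k * (q n - μ.real (N n)) ≤ q k * (s n / (n + 1)) :=
                  mul_le_mul_of_nonneg_left (by linarith [e1.1]) hk0
                have e4 : q k * (s n / (n + 1)) ≤ s n / (n + 1) := by nlinarith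
                nlinarith [e2.2]
              · have : ∀ x, gk N q A k x * gk N q A n x = 0 := by
                  intro x; unfold gk; rw [if_neg hkA]; ring
                simp_rw [this]
                simp only [integral_zero, mul_zero]
                positivity
          _ = n * (4 * (s n / (n + 1))) := by
              rw [Finset.sum_const, Finset.card_range, nsmul_eq_mul]
          _ = 4 * (s n * (n / (n + 1))) := by ring
          _ ≤ 4 * (s n * 1) := by
              have : (n : ℝ) / (n + 1) ≤ 1 := by rw [div_le_one hnr]; linarith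
              gcongr
          _ = 4 * s n := by ring
      have hsq : ∫ x, gk N q A n x * gk N q A n x ∂μ ≤ 2 * s n := by
        rw [gk_mul hN hn hn, Set.inter_self]
        rw [abs_le] at e1
        have a1 := e1.1
        have a2 := e1.2
        have b1 : (μ.real (N n) - q n) * (1 - 2 * q n) ≤ s n := by
          have c1 : |(μ.real (N n) - q n) * (1 - 2 * q n)| ≤ s n * 1 := by
            rw [abs_mul]
            apply mul_le_mul _ _ (abs_nonneg _) hsn
            · rw [abs_le]; constructor <;> linarith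
            · rw [abs_le]; constructor <;> linarith
          linarith [le_abs_self ((μ.real (N n) - q n) * (1 - 2 * q n))]
        nlinarith
      have hsg : sg s A n = s n := by unfold sg; rw [if_pos hn]
      rw [hsg]
      linarith
    · have hz : ∀ x, gk N q A n x = 0 := by intro x; unfold gk; rw [if_neg hn]
      have hsg : sg s A n = 0 := by unfold sg; rw [if_neg hn]
      rw [hsg]
      simp_rw [hz]
      simp only [mul_zero, integral_zero, Finset.sum_const_zero, add_zero]
      exact ih

open Classical in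
/-- The criterion. -/
theorem full_measure (hN : ∀ k, MeasurableSet (N k)) (hq : ∀ k ∈ A, 0 ≤ q k ∧ q k ≤ 1)
    (hs : ∀ k ∈ A, s k / 2 ≤ 1 - q k ∧ 1 - q k ≤ s k)
    (h1 : ∀ m ∈ A, |μ.real (N m) - q m| ≤ s m / (m + 1))
    (h2 : ∀ k ∈ A, ∀ m ∈ A, k < m → |μ.real (N k ∩ N m) - q m * μ.real (N k)| ≤ s m / (m + 1))
    (hdiv : ¬ Summable (sg s A)) :
    ∀ᵐ x ∂μ, ∃ᶠ k in atTop, k ∈ A ∧ x ∉ N k := by
  have hsg0 : ∀ k, 0 ≤ sg s A k := by
    intro k
    unfold sg
    split_ifs with h
    · have := hs k h; linarith [(hq k h).2, this.1, this.2]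
    · exact le_rfl
  have htend := (not_summable_iff_tendsto_nat_atTop_of_nonneg hsg0).1 hdiv
  obtain ⟨P, hP⟩ : ∃ P : ℕ → ℝ, P = fun n => ∑ k ∈ Finset.range n, sg (fun k => 1 - q k) A k :=
    ⟨_, rfl⟩
  have hPlow : ∀ n, ∑ k ∈ Finset.range n, sg s A k ≤ 2 * P n := by
    intro n
    rw [hP]
    simp only
    rw [Finset.mul_sum]
    refine Finset.sum_le_sum fun k _ => ?_
    unfold sg
    split_ifs with h
    · have := hs k h; linarith [this.1]
    · simp
  have hPtend : Tendsto P atTop atTop := by
    have : Tendsto (fun n => (1 / 2 : ℝ) * ∑ k ∈ Finset.range n, sg s A k) atTop atTop :=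
      htend.const_mul_atTop (by norm_num)
    exact tendsto_atTop_mono (fun n => by linarith [hPlow n]) this
  obtain ⟨f, hf⟩ : ∃ f : ℕ → X → ℝ, f = fun n x => ∑ k ∈ Finset.range n,
      (if k ∈ A ∧ x ∉ N k then (1 : ℝ) else 0) := ⟨_, rfl⟩
  have hfG : ∀ n x, f n x = P n - ∑ k ∈ Finset.range n, gk N q A k x := by
    intro n x
    rw [hf, hP]
    simp only
    rw [← Finset.sum_sub_distrib]
    refine Finset.sum_congr rfl fun k _ => ?_
    unfold sg gk Set.indicator
    by_cases h : k ∈ A <;> by_cases h' : x ∈ N k <;> simp [h, h']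
  have hnull : ∀ M : ℕ, μ {x | ∀ n, f n x ≤ M} = 0 := by
    intro M
    have hb : ∀ᶠ n in atTop, μ.real {x | ∀ n, f n x ≤ M} ≤ 56 / P n := by
      filter_upwards [hPtend.eventually_ge_atTop (2 * M), hPtend.eventually_gt_atTop 0] with n hn hn0
      have hint : Integrable (fun x => (∑ k ∈ Finset.range n, gk N q A k x) ^ 2) μ := by
        have : (fun x => (∑ k ∈ Finset.range n, gk N q A k x) ^ 2) =
            fun x => ∑ k ∈ Finset.range n, ∑ m ∈ Finset.range n, gk N q A k x * gk N q A m x := by
          ext x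
          rw [sq, Finset.sum_mul_sum]
        rw [this]
        exact integrable_finsetSum _ fun k _ => integrable_finsetSum _ fun m _ =>
          gk_mul_int hN hq k m
      have hmk := mul_meas_ge_le_integral_of_nonneg (μ := μ)
        (f := fun x => (∑ k ∈ Finset.range n, gk N q A k x) ^ 2)
        (Eventually.of_forall fun x => sq_nonneg _) hint ((P n / 2) ^ 2)
      have hsub : {x | ∀ n, f n x ≤ M} ⊆ {x | (P n / 2) ^ 2 ≤
          (∑ k ∈ Finset.range n, gk N q A k x) ^ 2} := by
        intro x hx
        have h3 : f n x ≤ M := hx n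
        rw [hfG] at h3
        show (P n / 2) ^ 2 ≤ (∑ k ∈ Finset.range n, gk N q A k x) ^ 2
        apply pow_le_pow_left₀ (by linarith)
        linarith
      have h4 := measureReal_mono (μ := μ) hsub
      have h5 := hmk.trans (second_moment hN hq hs h1 h2 n)
      have h6 := hPlow n
      rw [le_div_iff₀ hn0]
      have h7 : (P n / 2) ^ 2 * μ.real {x | ∀ n, f n x ≤ M} ≤ 14 * P n := by
        calc (P n / 2) ^ 2 * μ.real {x | ∀ n, f n x ≤ M} ≤ (P n / 2) ^ 2 * μ.real {x | (P n / 2) ^ 2 ≤
          (∑ k ∈ Finset.range n, gk N q A k x) ^ 2} := by gcongr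
          _ ≤ 7 * ∑ k ∈ Finset.range n, sg s A k := h5
          _ ≤ 14 * P n := by linarith
      nlinarith
    have hlim : Tendsto (fun n => 56 / P n) atTop (𝓝 0) := hPtend.const_div_atTop 56
    have h0 : μ.real {x | ∀ n, f n x ≤ M} ≤ 0 := ge_of_tendsto hlim hb
    have h0' : μ.real {x | ∀ n, f n x ≤ M} = 0 := le_antisymm h0 measureReal_nonneg
    rw [Measure.real, ENNReal.toReal_eq_zero_iff] at h0'
    exact h0'.resolve_right (measure_ne_top _ _)
  rw [ae_iff]
  refine measure_mono_null ?_ (measure_iUnion_null hnull)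
  intro x hx
  have hx' : ¬ ∃ᶠ k in atTop, k ∈ A ∧ x ∉ N k := hx
  rw [not_frequently] at hx'
  obtain ⟨K0, hK0⟩ := eventually_atTop.1 hx'
  rw [Set.mem_iUnion]
  refine ⟨K0, ?_⟩
  intro n
  rw [hf]
  calc ∑ k ∈ Finset.range n, (if k ∈ A ∧ x ∉ N k then (1 : ℝ) else 0)
      ≤ ∑ k ∈ Finset.range n, (if k < K0 then (1 : ℝ) else 0) := by
        refine Finset.sum_le_sum fun k _ => ?_
        by_cases hk : k < K0
        · rw [if_pos hk]; split_ifs <;> norm_num
        · have := hK0 k (by omega)
          rw [if_neg this, if_neg hk]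
    _ ≤ ∑ k ∈ Finset.range K0, (1 : ℝ) := by
        rw [← Finset.sum_filter]
        apply Finset.sum_le_sum_of_subset_of_nonneg
        · intro i hi
          rw [Finset.mem_filter] at hi
          exact Finset.mem_range.2 hi.2
        · intro _ _ _; norm_num
    _ = K0 := by simp

end

end Pool.Agent.Q3.RandK
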