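import Pool.Agent.Q3.RandK.Prob
import Pool.Agent.Q3.RandK.Det

/-!
# The weighted Khintchine law for random sequences
-/

set_option autoImplicit false
set_option linter.unusedSectionVars false

open MeasureTheory Set Filter Topology

namespace Pool.Agent.Q3.RandK

/-! ### cells -/

/-- Index of the dyadic interval of length `2^{-l}` containing `t`. -/
noncomputable def ci (l : ℕ) (t : unitInterval) : ℕ := min ⌊(2 : ℝ) ^ l * t⌋₊ (2 ^ l - 1)

theorem ci_lt (l : ℕ) (t : unitInterval) : ci l t < 2 ^ l := by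
  unfold ci
  have : 0 < 2 ^ l := by positivity
  omega

theorem ci_eq_iff {l κ : ℕ} (hκ : κ < 2 ^ l) (u : unitInterval) :
    ci l u = κ ↔ ((κ : ℝ) ≤ 2 ^ l * u ∧ ((2 : ℝ) ^ l * u < κ + 1 ∨ κ + 1 = 2 ^ l)) := by
  have hu : 0 ≤ (2 : ℝ) ^ l * u := mul_nonneg (by positivity) u.2.1
  unfold ci
  by_cases h : κ + 1 = 2 ^ l
  · have e : min ⌊(2 : ℝ) ^ l * u⌋₊ (2 ^ l - 1) = κ ↔ κ ≤ ⌊(2 : ℝ) ^ l * u⌋₊ := by
      omega
    rw [e, Nat.le_floor_iff hu]
    simp [h]
  · have e : min ⌊(2 : ℝ) ^ l * u⌋₊ (2 ^ l - 1) = κ ↔ ⌊(2 : ℝ) ^ l * u⌋₊ = κ := by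
      omega
    rw [e, Nat.floor_eq_iff hu]
    simp [h]

theorem ci_close {l : ℕ} {u t : unitInterval} (h : ci l u = ci l t) : |(u : ℝ) - t| ≤ (1 / 2) ^ l := by
  have h2 : (0 : ℝ) < 2 ^ l := by positivity
  have key : ∀ v : unitInterval, (ci l v : ℝ) ≤ 2 ^ l * v ∧ (2 : ℝ) ^ l * v ≤ ci l v + 1 := by
    intro v
    obtain ⟨h3, h4⟩ := (ci_eq_iff (ci_lt l v) v).1 rfl
    refine ⟨h3, ?_⟩
    rcases h4 with h4 | h4
    · exact h4.le
    · have : ((ci l v : ℝ)) + 1 = 2 ^ l := by exact_mod_cast h4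
      rw [this]
      nlinarith [v.2.2]
  obtain ⟨a1, a2⟩ := key u
  obtain ⟨b1, b2⟩ := key t
  rw [h] at a1 a2
  have h5 : (2 : ℝ) ^ l * |(u : ℝ) - t| ≤ 1 := by
    have e : (2 : ℝ) ^ l * |(u : ℝ) - t| = |(2 : ℝ) ^ l * ((u : ℝ) - t)| := by
      rw [abs_mul, abs_of_pos h2]
    rw [e, abs_le]
    constructor <;> nlinarith
  rw [one_div, inv_pow, ← one_div, le_div_iff₀ h2]
  linarith

theorem ci_vol (l : ℕ) (t : unitInterval) :
    (volume : Measure unitInterval).real {u | ci l u = ci l t} = (1 / 2) ^ l := by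
  obtain ⟨κ, hκ⟩ : ∃ κ, κ = ci l t := ⟨_, rfl⟩
  have hlt : κ < 2 ^ l := by rw [hκ]; exact ci_lt l t
  rw [← hκ]
  have h2 : (0 : ℝ) < 2 ^ l := by positivity
  have hκr : (κ : ℝ) + 1 ≤ 2 ^ l := by exact_mod_cast hlt
  have hκ0 : (0 : ℝ) ≤ κ := Nat.cast_nonneg κ
  have ha : (κ : ℝ) / 2 ^ l ∈ unitInterval := ⟨by positivity, by rw [div_le_one h2]; linarith⟩
  have hb : ((κ : ℝ) + 1) / 2 ^ l ∈ unitInterval := ⟨by positivity, by rw [div_le_one h2]; exact hκr⟩
  have hdiff : ((κ : ℝ) + 1) / 2 ^ l - κ / 2 ^ l = (1 / 2) ^ l := by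
    rw [one_div, inv_pow]; field_simp; ring
  by_cases h : κ + 1 = 2 ^ l
  · have e : {u | ci l u = κ} = Icc (⟨_, ha⟩ : unitInterval) ⟨_, hb⟩ := by
      ext u
      simp only [Set.mem_ofPred_eq, Set.mem_Icc]
      rw [ci_eq_iff hlt, ← Subtype.coe_le_coe, ← Subtype.coe_le_coe]
      simp only
      rw [div_le_iff₀ h2, le_div_iff₀ h2]
      have h' : (κ : ℝ) + 1 = 2 ^ l := by exact_mod_cast h
      constructor
      · rintro ⟨h3, _⟩
        refine ⟨by linarith, ?_⟩
        rw [h']; nlinarith [u.2.2]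
      · rintro ⟨h3, h4⟩
        exact ⟨by linarith, Or.inr h⟩
    rw [e, Measure.real, unitInterval.volume_Icc]
    simp only
    rw [hdiff, ENNReal.toReal_ofReal (by positivity)]
  · have e : {u | ci l u = κ} = Ico (⟨_, ha⟩ : unitInterval) ⟨_, hb⟩ := by
      ext u
      simp only [Set.mem_ofPred_eq, Set.mem_Ico]
      rw [ci_eq_iff hlt, ← Subtype.coe_le_coe, ← Subtype.coe_lt_coe]
      simp only
      rw [div_le_iff₀ h2, lt_div_iff₀ h2]
      constructor
      · rintro ⟨h3, h4⟩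
        have := h4.resolve_right h
        exact ⟨by linarith, by linarith⟩
      · rintro ⟨h3, h4⟩
        exact ⟨by linarith, Or.inl (by linarith)⟩
    rw [e, Measure.real, unitInterval.volume_Ico]
    simp only
    rw [hdiff, ENNReal.toReal_ofReal (by positivity)]

theorem measurable_ci (l : ℕ) : Measurable (ci l) := by
  unfold ci
  have h1 : Measurable fun t : unitInterval => ⌊(2 : ℝ) ^ l * t⌋₊ :=
    Nat.measurable_floor.comp (by fun_prop)
  exact h1.min measurable_const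

section

variable {n : ℕ}

/-- The cell of a point of the cube. -/
noncomputable def cell (l : Fin n → ℕ) (x : Fin n → unitInterval) : Fin n → ℕ := fun i => ci (l i) (x i)

theorem measurable_cell (l : Fin n → ℕ) : Measurable (cell l) :=
  measurable_pi_lambda _ fun i => (measurable_ci (l i)).comp (measurable_pi_apply i)

/-- The volume of a cell. -/
noncomputable def VV (l : Fin n → ℕ) : ℝ := (1 / 2) ^ (∑ i, l i)

theorem cell_vol (l : Fin n → ℕ) (x : Fin n → unitInterval) :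
    (volume : Measure (Fin n → unitInterval)).real {u | cell l u = cell l x} = VV l := by
  have e : {u | cell l u = cell l x} = Set.pi univ (fun i => {t | ci (l i) t = ci (l i) (x i)}) := by
    ext u
    simp only [Set.mem_ofPred_eq, Set.mem_pi, Set.mem_univ, true_implies]
    exact funext_iff
  rw [e, Measure.real, volume_pi, Measure.pi_pi, ENNReal.toReal_prod]
  unfold VV
  rw [← Finset.prod_pow_eq_pow_sum]
  exact Finset.prod_congr rfl fun i _ => ci_vol (l i) (x i)

/-- The blocks. -/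
def Jx : ℕ → Finset ℕ
  | 0 => ∅
  | k + 1 => Finset.Ico (2 ^ k) (2 ^ (k + 1))

theorem Jx_card (k : ℕ) : (Jx (k + 1)).card = 2 ^ k := by
  show (Finset.Ico (2 ^ k) (2 ^ (k + 1))).card = 2 ^ k
  rw [Nat.card_Ico, pow_succ]; omega

theorem Jx_disjoint {k m : ℕ} (h : k ≤ m) : Disjoint (Jx k) (Jx (m + 1)) := by
  cases k with
  | zero => exact Finset.disjoint_empty_left _
  | succ k =>
    rw [Finset.disjoint_left]
    intro j hj hj'
    have h1 : j < 2 ^ (k + 1) := (Finset.mem_Ico.1 hj).2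
    have h2 : 2 ^ m ≤ j := (Finset.mem_Ico.1 hj').1
    have h3 : 2 ^ (k + 1) ≤ 2 ^ m := Nat.pow_le_pow_right (by norm_num) h
    omega

/-- The shapes considered at level `m`. -/
def LL (n m : ℕ) : Finset (Fin n → ℕ) := Fintype.piFinset fun _ => Finset.range (3 * m + 1)

theorem LL_card (m : ℕ) : (LL n m).card = (3 * m + 1) ^ n := by
  unfold LL
  rw [Fintype.card_piFinset]
  simp

/-- The underlying measure on sequences. -/
noncomputable abbrev PP (n : ℕ) : Measure (ℕ → (Fin n → unitInterval)) :=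
  PR (volume : Measure (Fin n → unitInterval))

/-- The bad event for level `m`. -/
def bad (n m : ℕ) : Set (ℕ → (Fin n → unitInterval)) :=
  ⋃ k ∈ Finset.range (m + 1), ⋃ l' ∈ LL n m, ⋃ l ∈ LL n m,
    {ω | ((Jx (m + 1)).card : ℝ) * VV l * (1 / ((m : ℝ) + 1)) ≤
      |Zf volume (cell l') (Jx k) (cell l) (Jx (m + 1)) (VV l) ω|}

theorem bad_le (n m : ℕ) : (PP n).real (bad n m) ≤ 4 ^ (2 * n + 3) * (((m : ℝ) + 1) ^ (2 * n + 3) *
    (1 / 2) ^ m) := by
  have h1 : ∀ k ∈ Finset.range (m + 1), ∀ l' ∈ LL n m, ∀ l ∈ LL n m,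
      (PP n).real {ω | ((Jx (m + 1)).card : ℝ) * VV l * (1 / ((m : ℝ) + 1)) ≤
        |Zf volume (cell l') (Jx k) (cell l) (Jx (m + 1)) (VV l) ω|} ≤
        ((m : ℝ) + 1) ^ 2 * (1 / 2) ^ m := by
    intro k hk l' _ l _
    have h := Zf_tail (μ := (volume : Measure (Fin n → unitInterval))) (measurable_cell l)
      (measurable_cell l') (cell_vol l) (J := Jx (m + 1)) (J' := Jx k)
      (Jx_disjoint (by have := Finset.mem_range.1 hk; omega))
      (by rw [Jx_card]; positivity) (by unfold VV; positivity) (δ := 1 / ((m : ℝ) + 1))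
      (by positivity)
    refine h.trans (le_of_eq ?_)
    rw [Jx_card]
    push_cast
    rw [one_div, one_div, one_div, inv_pow, inv_pow]
    field_simp
  calc (PP n).real (bad n m) ≤ ∑ _k ∈ Finset.range (m + 1), ∑ _l' ∈ LL n m, ∑ _l ∈ LL n m,
        ((m : ℝ) + 1) ^ 2 * (1 / 2) ^ m := by
        unfold bad
        refine (measureReal_biUnion_finset_le _ _).trans (Finset.sum_le_sum fun k hk => ?_)
        refine (measureReal_biUnion_finset_le _ _).trans (Finset.sum_le_sum fun l' hl' => ?_)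
        refine (measureReal_biUnion_finset_le _ _).trans (Finset.sum_le_sum fun l hl => ?_)
        exact h1 k hk l' hl' l hl
    _ = ((m : ℝ) + 1) * ((3 * m + 1) ^ n * ((3 * m + 1) ^ n * (((m : ℝ) + 1) ^ 2 * (1 / 2) ^ m))) := by
        simp only [Finset.sum_const, Finset.card_range, LL_card, nsmul_eq_mul]
        push_cast
        ring
    _ ≤ (4 * ((m : ℝ) + 1)) * ((4 * ((m : ℝ) + 1)) ^ n * ((4 * ((m : ℝ) + 1)) ^ n *
        ((4 * ((m : ℝ) + 1)) ^ 2 * (1 / 2) ^ m))) := by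
        have h3 : (3 * (m : ℝ) + 1) ≤ 4 * ((m : ℝ) + 1) := by
          have : (0 : ℝ) ≤ m := Nat.cast_nonneg m
          linarith
        have h4 : ((m : ℝ) + 1) ≤ 4 * ((m : ℝ) + 1) := by
          have : (0 : ℝ) ≤ m := Nat.cast_nonneg m
          linarith
        gcongr
    _ = 4 ^ (2 * n + 3) * (((m : ℝ) + 1) ^ (2 * n + 3) * (1 / 2) ^ m) := by
        rw [← mul_assoc (4 ^ (2 * n + 3)), ← mul_pow]
        ring

theorem summable_bound (n : ℕ) : Summable fun m : ℕ => (4 : ℝ) ^ (2 * n + 3) *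
    (((m : ℝ) + 1) ^ (2 * n + 3) * (1 / 2) ^ m) := by
  apply Summable.mul_left
  have h1 : Summable fun m : ℕ => (m : ℝ) ^ (2 * n + 3) * (1 / 2 : ℝ) ^ m :=
    summable_pow_mul_geometric_of_norm_lt_one _ (by rw [Real.norm_eq_abs, abs_of_pos] <;> norm_num)
  have h2 := ((summable_nat_add_iff 1).2 h1).mul_left 2
  refine h2.congr fun m => ?_
  push_cast
  rw [pow_succ]
  ring

theorem ae_good (n : ℕ) : ∀ᵐ ω ∂(PP n), ∀ᶠ m in atTop, ω ∉ bad n m := by
  apply ae_eventually_notMem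
  have h1 : ∀ m, (PP n) (bad n m) ≤ ENNReal.ofReal ((4 : ℝ) ^ (2 * n + 3) *
      (((m : ℝ) + 1) ^ (2 * n + 3) * (1 / 2) ^ m)) := by
    intro m
    have := bad_le n m
    rw [Measure.real] at this
    exact (ENNReal.le_ofReal_iff_toReal_le (measure_ne_top _ _) (by positivity)).2 this
  refine ne_top_of_le_ne_top ?_ (ENNReal.tsum_le_tsum h1)
  exact (summable_bound n).tsum_ofReal_ne_top

/-! ### consequences for a good sequence -/

/-- The points whose cell contains no point of the block. -/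
def Nn (ω : ℕ → (Fin n → unitInterval)) (l : Fin n → ℕ) (J : Finset ℕ) :
    Set (Fin n → unitInterval) := {x | ω ∈ NB (cell l) J x}

theorem measurableSet_Nn (ω : ℕ → (Fin n → unitInterval)) (l : Fin n → ℕ) (J : Finset ℕ) :
    MeasurableSet (Nn ω l J) := by
  have h := measurableSet_joint (measurable_cell l) J
  have : Nn ω l J = (fun x => ((ω, x) : (ℕ → (Fin n → unitInterval)) × (Fin n → unitInterval))) ⁻¹'
    {z | z.1 ∈ NB (cell l) J z.2} := rfl
  rw [this]
  exact measurable_prodMk_left h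

theorem Zf_eq (ω : ℕ → (Fin n → unitInterval)) (l' l : Fin n → ℕ) (J' J : Finset ℕ) (V : ℝ) :
    Zf (volume : Measure (Fin n → unitInterval)) (cell l') J' (cell l) J V ω =
      (volume : Measure (Fin n → unitInterval)).real (Nn ω l' J' ∩ Nn ω l J) -
      (1 - V) ^ J.card * (volume : Measure (Fin n → unitInterval)).real (Nn ω l' J') := by
  have m1 := measurableSet_Nn ω l' J'
  have m2 := measurableSet_Nn ω l J
  unfold Zf
  have hexp : ∀ x, nb (cell l') J' x ω * av (cell l) J V x ω =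
      (Nn ω l' J' ∩ Nn ω l J).indicator (fun _ => (1 : ℝ)) x -
      (1 - V) ^ J.card * (Nn ω l' J').indicator (fun _ => (1 : ℝ)) x := by
    intro x
    unfold av nb Nn
    simp only [Set.indicator, Set.mem_inter_iff, Set.mem_ofPred_eq]
    by_cases h1 : ω ∈ NB (cell l') J' x <;> by_cases h2 : ω ∈ NB (cell l) J x <;> simp [h1, h2]
  have int1 : ∀ t : Set (Fin n → unitInterval), MeasurableSet t →
      Integrable (fun x => t.indicator (fun _ => (1 : ℝ)) x)
        (volume : Measure (Fin n → unitInterval)) :=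
    fun t ht => (integrable_const 1).indicator ht
  have iind : ∀ t : Set (Fin n → unitInterval), MeasurableSet t →
      ∫ x, t.indicator (fun _ => (1 : ℝ)) x = (volume : Measure (Fin n → unitInterval)).real t := by
    intro t ht; rw [integral_indicator ht]; simp
  simp_rw [hexp]
  rw [integral_sub (int1 _ (m1.inter m2)) ((int1 _ m1).const_mul _), integral_const_mul,
    iind _ (m1.inter m2), iind _ m1]

theorem Nn_empty (ω : ℕ → (Fin n → unitInterval)) (l : Fin n → ℕ) : Nn ω l ∅ = univ := by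
  ext x
  simp [Nn, NB]

/-- What the good event gives. -/
theorem good_bound {ω : ℕ → (Fin n → unitInterval)} {m : ℕ} (h : ω ∉ bad n m) {k : ℕ} (hk : k ≤ m)
    {l' l : Fin n → ℕ} (hl' : l' ∈ LL n m) (hl : l ∈ LL n m) :
    |(volume : Measure (Fin n → unitInterval)).real (Nn ω l' (Jx k) ∩ Nn ω l (Jx (m + 1))) -
      (1 - VV l) ^ (2 ^ m) * (volume : Measure (Fin n → unitInterval)).real (Nn ω l' (Jx k))| ≤
      2 ^ m * VV l / (m + 1) := by
  unfold bad at h
  simp only [Set.mem_iUnion, not_exists, Set.mem_ofPred_eq, not_le] at h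
  have h1 := h k (Finset.mem_range.2 (by omega)) l' hl' l hl
  rw [Zf_eq, Jx_card] at h1
  push_cast at h1
  have e : (2 : ℝ) ^ m * VV l * (1 / ((m : ℝ) + 1)) = 2 ^ m * VV l / (m + 1) := by ring
  rw [e] at h1
  exact h1.le

theorem exists_level {c B : ℝ} (hc : 0 < c) (hcB : c ≤ B) (hB : 1 ≤ B) :
    ∃ l : ℕ, (1 / 2 : ℝ) ^ l < c ∧ c / (2 * B) ≤ (1 / 2) ^ l := by
  classical
  have hex : ∃ l : ℕ, (1 / 2 : ℝ) ^ l < c := exists_pow_lt_of_lt_one hc (by norm_num)
  refine ⟨Nat.find hex, Nat.find_spec hex, ?_⟩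
  rcases Nat.eq_zero_or_pos (Nat.find hex) with h | h
  · rw [h, pow_zero, div_le_one (by linarith)]
    linarith
  · have h1 := Nat.find_min hex (show Nat.find hex - 1 < Nat.find hex by omega)
    push Not at h1
    have e : (1 / 2 : ℝ) ^ (Nat.find hex) = (1 / 2) ^ (Nat.find hex - 1) * (1 / 2) := by
      rw [← pow_succ]; congr 1; omega
    rw [e]
    have h2 : c / (2 * B) ≤ c * (1 / 2) := by
      rw [div_le_iff₀ (by linarith)]
      nlinarith
    linarith

theorem q_low {V : ℝ} (hV0 : 0 ≤ V) (hV1 : V ≤ 1) (N : ℕ) (hN : N * V ≤ 1) :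
    N * V / 2 ≤ 1 - (1 - V) ^ N := by
  have h1 : (1 - V) ^ N ≤ Real.exp (-(N * V)) := by
    have h2 : 1 - V ≤ Real.exp (-V) := by linarith [Real.add_one_le_exp (-V)]
    calc (1 - V) ^ N ≤ Real.exp (-V) ^ N := pow_le_pow_left₀ (by linarith) h2 N
      _ = Real.exp (-(N * V)) := by rw [← Real.exp_nat_mul]; congr 1; ring
  obtain ⟨s, hs⟩ : ∃ s, s = N * V := ⟨_, rfl⟩
  have hs0 : 0 ≤ s := by rw [hs]; positivity
  rw [← hs] at h1 hN ⊢
  have h3 : Real.exp (-s) * (1 + s) ≤ 1 := by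
    have h4 := Real.add_one_le_exp s
    have h5 := Real.exp_pos (-s)
    calc Real.exp (-s) * (1 + s) ≤ Real.exp (-s) * Real.exp s := by
          apply mul_le_mul_of_nonneg_left _ h5.le; linarith
      _ = 1 := by rw [← Real.exp_add]; simp
  have h6 : Real.exp (-s) ≤ 1 - s / 2 := by
    by_contra hcon
    push Not at hcon
    have h7 : (1 - s / 2) * (1 + s) < Real.exp (-s) * (1 + s) :=
      mul_lt_mul_of_pos_right hcon (by linarith)
    nlinarith
  linarith

/-- The set of points approximated infinitely often. -/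
def W (ω : ℕ → (Fin n → unitInterval)) (ψ : Fin n → ℕ → ℝ) : Set (Fin n → unitInterval) :=
  {x | ∃ᶠ j in atTop, ∀ i, |(x i : ℝ) - ω j i| < ψ i j}

theorem good_full (hn : 1 ≤ n) {ω : ℕ → (Fin n → unitInterval)} (hω : ∀ᶠ m in atTop, ω ∉ bad n m)
    (ψ : Fin n → ℕ → ℝ) (hanti : ∀ i, Antitone (ψ i)) (hpos : ∀ i j, 0 < ψ i j)
    (hdiv : ¬ Summable fun j => ∏ i, ψ i j) :
    ∀ᵐ x ∂(volume : Measure (Fin n → unitInterval)), x ∈ W ω ψ := by
  classical
  obtain ⟨K0, hK0⟩ := eventually_atTop.1 hω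
  obtain ⟨i0⟩ : Nonempty (Fin n) := ⟨⟨0, hn⟩⟩
  obtain ⟨B, hB⟩ : ∃ B : ℝ, B = 1 + ∑ i, ψ i 0 := ⟨_, rfl⟩
  have hB1 : 1 ≤ B := by
    rw [hB]
    have : 0 ≤ ∑ i, ψ i 0 := Finset.sum_nonneg fun i _ => (hpos i 0).le
    linarith
  have hψB : ∀ i j, ψ i j ≤ B := by
    intro i j
    have h1 : ψ i j ≤ ψ i 0 := hanti i (Nat.zero_le j)
    have h2 : ψ i 0 ≤ ∑ i, ψ i 0 :=
      Finset.single_le_sum (f := fun i => ψ i 0) (fun i _ => (hpos i 0).le) (Finset.mem_univ i)
    rw [hB]; linarith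
  have hlev : ∀ (k : ℕ) (i : Fin n), ∃ l : ℕ, (1 / 2 : ℝ) ^ l < ψ i (2 ^ (k + 1)) ∧
      ψ i (2 ^ (k + 1)) / (2 * B) ≤ (1 / 2) ^ l := fun k i => exists_level (hpos i _) (hψB i _) hB1
  choose l0 hl0 hl0' using hlev
  obtain ⟨l1, hl1⟩ : ∃ l1 : ℕ → Fin n → ℕ, l1 = fun k i => l0 k i +
    (if i = i0 then k - ∑ i, l0 k i else 0) := ⟨_, rfl⟩
  have hsum1 : ∀ k, ∑ i, l1 k i = ∑ i, l0 k i + (k - ∑ i, l0 k i) := by
    intro k
    rw [hl1]
    simp only
    rw [Finset.sum_add_distrib]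
    simp
  have hl01 : ∀ k i, l0 k i ≤ l1 k i := by intro k i; rw [hl1]; exact Nat.le_add_right _ _
  obtain ⟨s, hs⟩ : ∃ s : ℕ → ℝ, s = fun k => 2 ^ k * VV (l1 k) := ⟨_, rfl⟩
  have hVV0 : ∀ l : Fin n → ℕ, 0 < VV l := by intro l; unfold VV; positivity
  have hVV1 : ∀ l : Fin n → ℕ, VV l ≤ 1 := by
    intro l; unfold VV; exact pow_le_one₀ (by norm_num) (by norm_num)
  have hs0 : ∀ k, 0 < s k := by intro k; rw [hs]; have := hVV0 (l1 k); positivity
  have htwo : ∀ a : ℕ, (2 : ℝ) ^ a * (1 / 2) ^ a = 1 := by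
    intro a; rw [← mul_pow]; norm_num
  have hs1 : ∀ k, s k ≤ 1 := by
    intro k
    rw [hs]
    simp only
    unfold VV
    have h1 : k ≤ ∑ i, l1 k i := by rw [hsum1]; omega
    calc (2 : ℝ) ^ k * (1 / 2) ^ (∑ i, l1 k i) ≤ 2 ^ k * (1 / 2) ^ k := by
          apply mul_le_mul_of_nonneg_left _ (by positivity)
          exact pow_le_pow_of_le_one (by norm_num) (by norm_num) h1
      _ = 1 := htwo k
  obtain ⟨A, hA⟩ : ∃ A : Set ℕ, A = {k | K0 ≤ k ∧ 1 / ((k : ℝ) + 1) ^ 2 ≤ s k} := ⟨_, rfl⟩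
  have hshape : ∀ k ∈ A, ∀ m, k ≤ m → l1 k ∈ LL n m := by
    intro k hk m hkm
    rw [hA] at hk
    obtain ⟨_, hk2⟩ := hk
    unfold LL
    rw [Fintype.mem_piFinset]
    intro i
    rw [Finset.mem_range]
    have h1 : l1 k i ≤ ∑ i, l1 k i := Finset.single_le_sum (f := fun i => l1 k i)
      (fun _ _ => Nat.zero_le _) (Finset.mem_univ i)
    have h2 : ∑ i, l1 k i ≤ 3 * k := by
      by_contra hcon
      push Not at hcon
      have h3 : s k < 1 / ((k : ℝ) + 1) ^ 2 := by
        rw [hs]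
        simp only
        unfold VV
        have h4 : ((k : ℝ) + 1) ≤ 2 ^ k := by
          have : k + 1 ≤ 2 ^ k := Nat.lt_two_pow_self
          exact_mod_cast this
        have h5 : ((k : ℝ) + 1) ^ 2 ≤ (2 ^ k) ^ 2 := by gcongr
        rw [lt_div_iff₀ (by positivity)]
        have h6 : (1 / 2 : ℝ) ^ (∑ i, l1 k i) ≤ (1 / 2) ^ (3 * k + 1) :=
          pow_le_pow_of_le_one (by norm_num) (by norm_num) hcon
        calc (2 : ℝ) ^ k * (1 / 2) ^ (∑ i, l1 k i) * ((k : ℝ) + 1) ^ 2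
            ≤ 2 ^ k * (1 / 2) ^ (3 * k + 1) * (2 ^ k) ^ 2 := by gcongr
          _ = (2 ^ (3 * k) * (1 / 2) ^ (3 * k)) * (1 / 2) := by
            rw [pow_succ (1 / 2 : ℝ) (3 * k), ← pow_mul, show (2 : ℝ) ^ (3 * k) = 2 ^ k * 2 ^ (k * 2) by
              rw [← pow_add]; congr 1; ring]
            ring
          _ < 1 := by rw [htwo]; norm_num
      linarith
    omega
  obtain ⟨q, hq⟩ : ∃ q : ℕ → ℝ, q = fun k => (1 - VV (l1 k)) ^ (2 ^ k) := ⟨_, rfl⟩
  have hq01 : ∀ k, 0 ≤ q k ∧ q k ≤ 1 := by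
    intro k
    rw [hq]
    have h1 := hVV0 (l1 k)
    have h2 := hVV1 (l1 k)
    exact ⟨pow_nonneg (by linarith) _, pow_le_one₀ (by linarith) (by linarith)⟩
  have hsq : ∀ k, s k / 2 ≤ 1 - q k ∧ 1 - q k ≤ s k := by
    intro k
    have h1 := hs1 k
    rw [hs] at h1 ⊢
    rw [hq]
    simp only at h1 ⊢
    constructor
    · have := q_low (hVV0 (l1 k)).le (hVV1 (l1 k)) (2 ^ k) (by push_cast; exact h1)
      push_cast at this
      exact this
    · have := one_add_mul_le_pow (show (-2 : ℝ) ≤ -VV (l1 k) by linarith [hVV1 (l1 k)]) (2 ^ k)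
      push_cast at this
      have e : (1 : ℝ) + -VV (l1 k) = 1 - VV (l1 k) := by ring
      rw [e] at this
      linarith
  have hmain := full_measure (μ := (volume : Measure (Fin n → unitInterval)))
    (N := fun k => Nn ω (l1 k) (Jx (k + 1))) (q := q) (s := s) (A := A)
    (fun k => measurableSet_Nn ω _ _) (fun k _ => hq01 k) (fun k _ => hsq k) ?_ ?_ ?_
  · filter_upwards [hmain] with x hx
    show ∃ᶠ j in atTop, ∀ i, |(x i : ℝ) - ω j i| < ψ i j
    rw [frequently_atTop] at hx ⊢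
    intro a
    obtain ⟨k, hk, _, hkN⟩ := hx a
    have h1 : ∃ j ∈ Jx (k + 1), cell (l1 k) (ω j) = cell (l1 k) x := by
      by_contra hcon
      push Not at hcon
      apply hkN
      intro j hj
      exact hcon j hj
    obtain ⟨j, hj, hjc⟩ := h1
    have hj' : 2 ^ k ≤ j ∧ j < 2 ^ (k + 1) := Finset.mem_Ico.1 hj
    refine ⟨j, ?_, fun i => ?_⟩
    · have : k < 2 ^ k := Nat.lt_two_pow_self
      omega
    · have h2 : ci (l1 k i) (ω j i) = ci (l1 k i) (x i) := congrFun hjc i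
      have h3 := ci_close h2.symm
      calc |(x i : ℝ) - ω j i| ≤ (1 / 2) ^ (l1 k i) := h3
        _ ≤ (1 / 2) ^ (l0 k i) := pow_le_pow_of_le_one (by norm_num) (by norm_num) (hl01 k i)
        _ < ψ i (2 ^ (k + 1)) := hl0 k i
        _ ≤ ψ i j := hanti i hj'.2.le
  · intro m hm
    have hmA : K0 ≤ m := by rw [hA] at hm; exact hm.1
    have h1 := good_bound (hK0 m hmA) (Nat.zero_le m) (l' := l1 m) (l := l1 m)
      (hshape m hm m le_rfl) (hshape m hm m le_rfl)
    have h2 : Nn ω (l1 m) (Jx 0) = univ := Nn_empty ω _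
    rw [h2, Set.univ_inter] at h1
    simp only [probReal_univ, mul_one] at h1
    rw [hs, hq]
    exact h1
  · intro k hk m hm hkm
    have hmA : K0 ≤ m := by rw [hA] at hm; exact hm.1
    have h1 := good_bound (hK0 m hmA) (show k + 1 ≤ m from hkm) (l' := l1 k) (l := l1 m)
      (hshape k hk m hkm.le) (hshape m hm m le_rfl)
    rw [hs, hq]
    exact h1
  · -- divergence
    intro hsumm
    apply hdiv
    have hsq2 : Summable fun k : ℕ => 1 / ((k : ℝ) + 1) ^ 2 := by
      have := (summable_nat_add_iff 1).2 (Real.summable_one_div_nat_pow.2 (show 1 < 2 by norm_num))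
      refine this.congr fun k => ?_
      push_cast; rfl
    have hs_summ : Summable s := by
      have h1 := hsumm.add hsq2
      have h2 : ∀ k, K0 ≤ k → s k ≤ sg s A k + 1 / ((k : ℝ) + 1) ^ 2 := by
        intro k hk
        unfold sg
        by_cases hkA : k ∈ A
        · rw [if_pos hkA]
          have : 0 < 1 / ((k : ℝ) + 1) ^ 2 := by positivity
          linarith
        · rw [if_neg hkA, zero_add]
          by_contra hcon
          push Not at hcon
          apply hkA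
          rw [hA]
          exact ⟨hk, hcon.le⟩
      refine (summable_nat_add_iff K0).1 ?_
      refine Summable.of_nonneg_of_le (fun k => (hs0 _).le) (fun k => h2 (k + K0) (by omega)) ?_
      exact (summable_nat_add_iff K0).2 h1
    -- eventually the shapes are the original ones
    have hlim := hs_summ.tendsto_atTop_zero
    have hev : ∀ᶠ k in atTop, s k < 1 := hlim.eventually (gt_mem_nhds one_pos)
    obtain ⟨K1, hK1⟩ := eventually_atTop.1 hev
    obtain ⟨g, hg⟩ : ∃ g : ℕ → ℝ, g = fun j => ∏ i, ψ i j := ⟨_, rfl⟩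
    rw [← hg]
    have hg0 : ∀ j, 0 ≤ g j := by
      intro j; rw [hg]; exact Finset.prod_nonneg fun i _ => (hpos i j).le
    have hgm : ∀ ⦃a b : ℕ⦄, 0 < a → a ≤ b → g b ≤ g a := by
      intro a b _ hab
      rw [hg]
      exact Finset.prod_le_prod (fun i _ => (hpos i b).le) fun i _ => hanti i hab
    rw [← summable_condensed_iff_of_nonneg hg0 hgm]
    rw [← summable_nat_add_iff (K1 + 1)]
    have hbound : ∀ k, (2 : ℝ) ^ (k + (K1 + 1)) * g (2 ^ (k + (K1 + 1))) ≤
        (2 * (2 * B) ^ n) * s (k + K1) := by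
      intro k
      have h1 := hK1 (k + K1) (by omega)
      have h2 : ∑ i, l1 (k + K1) i = ∑ i, l0 (k + K1) i := by
        rw [hsum1]
        by_contra hcon
        have h3 : ∑ i, l1 (k + K1) i = k + K1 := by rw [hsum1]; omega
        have h4 : s (k + K1) = 1 := by
          rw [hs]; simp only; unfold VV; rw [h3]; exact htwo _
        linarith
      have h5 : s (k + K1) = 2 ^ (k + K1) * ∏ i, (1 / 2 : ℝ) ^ (l0 (k + K1) i) := by
        rw [hs]; simp only; unfold VV; rw [h2, Finset.prod_pow_eq_pow_sum]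
      have h6 : g (2 ^ (k + (K1 + 1))) ≤ (2 * B) ^ n * ∏ i, (1 / 2 : ℝ) ^ (l0 (k + K1) i) := by
        rw [hg]
        simp only
        calc ∏ i, ψ i (2 ^ (k + (K1 + 1))) ≤ ∏ i, ((2 * B) * (1 / 2 : ℝ) ^ (l0 (k + K1) i)) := by
              refine Finset.prod_le_prod (fun i _ => (hpos i _).le) fun i _ => ?_
              have h7 := hl0' (k + K1) i
              rw [div_le_iff₀ (by linarith)] at h7
              rw [show k + (K1 + 1) = k + K1 + 1 by ring]
              linarith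
          _ = (2 * B) ^ n * ∏ i, (1 / 2 : ℝ) ^ (l0 (k + K1) i) := by
              rw [Finset.prod_mul_distrib, Finset.prod_const, Finset.card_univ, Fintype.card_fin]
      rw [h5]
      calc (2 : ℝ) ^ (k + (K1 + 1)) * g (2 ^ (k + (K1 + 1)))
          ≤ 2 ^ (k + (K1 + 1)) * ((2 * B) ^ n * ∏ i, (1 / 2 : ℝ) ^ (l0 (k + K1) i)) := by gcongr
        _ = _ := by rw [show k + (K1 + 1) = k + K1 + 1 by ring, pow_succ]; ring
    refine Summable.of_nonneg_of_le (fun k => mul_nonneg (by positivity) (hg0 _)) hbound ?_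
    exact ((summable_nat_add_iff K1).2 hs_summ).mul_left _

/-- The weighted Khintchine law for random sequences. -/
theorem main (hn : 1 ≤ n) : ∀ᵐ ω ∂(PP n), ∀ ψ : Fin n → ℕ → ℝ, (∀ i, Antitone (ψ i)) →
    (∀ i j, 0 < ψ i j) → (¬ Summable fun j => ∏ i, ψ i j) →
    (volume : Measure (Fin n → unitInterval)) (W ω ψ) = 1 := by
  filter_upwards [ae_good n] with ω hω
  intro ψ hanti hpos hdiv
  have h := good_full hn hω ψ hanti hpos hdiv
  have h1 : (volume : Measure (Fin n → unitInterval)) (W ω ψ) =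
      (volume : Measure (Fin n → unitInterval)) univ := by
    apply measure_congr
    filter_upwards [h] with x hx
    exact propext ⟨fun _ => trivial, fun _ => hx⟩
  rw [h1, measure_univ]

end

end Pool.Agent.Q3.RandK
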