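import Mathlib

/-!
# Empty cells of i.i.d. points: a second moment estimate
-/

set_option autoImplicit false
set_option linter.unusedSectionVars false

open MeasureTheory ProbabilityTheory Set

namespace Pool.Agent.Q3.RandK

section

variable {X Y : Type*} [MeasurableSpace X] [MeasurableSpace Y] [Countable Y]
  [MeasurableSingletonClass Y] (μ : Measure X) [IsProbabilityMeasure μ]

/-- The law of an i.i.d. sequence. -/
noncomputable def PR : Measure (ℕ → X) := Measure.infinitePi (fun _ => μ)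

instance : IsProbabilityMeasure (PR μ) := by unfold PR; infer_instance

theorem PR_box (J : Finset ℕ) (t : ℕ → Set X) (ht : ∀ j ∈ J, MeasurableSet (t j)) :
    (PR μ).real (Set.pi (J : Set ℕ) t) = ∏ j ∈ J, μ.real (t j) := by
  unfold PR
  rw [Measure.real, Measure.infinitePi_pi (fun _ => μ) ht, ENNReal.toReal_prod]
  rfl

/-- `ω` has no point with index in `J` in the cell of `x`. -/
def NB (π : X → Y) (J : Finset ℕ) (x : X) : Set (ℕ → X) :=
  Set.pi (J : Set ℕ) (fun _ => {t | π t ≠ π x})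

/-- The indicator function of `NB`. -/
noncomputable def nb (π : X → Y) (J : Finset ℕ) (x : X) (ω : ℕ → X) : ℝ :=
  (NB π J x).indicator (fun _ => (1 : ℝ)) ω

variable {μ}

theorem measurableSet_ne {π : X → Y} (hπ : Measurable π) (x : X) : MeasurableSet {t | π t ≠ π x} :=
  hπ (measurableSet_singleton (π x)).compl

theorem measurableSet_NB {π : X → Y} (hπ : Measurable π) (J : Finset ℕ) (x : X) :
    MeasurableSet (NB π J x) :=
  MeasurableSet.pi J.countable_toSet fun _ _ => measurableSet_ne hπ x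

theorem nb_bound (π : X → Y) (J : Finset ℕ) (x : X) (ω : ℕ → X) :
    0 ≤ nb π J x ω ∧ nb π J x ω ≤ 1 := by
  unfold nb Set.indicator
  split_ifs <;> norm_num

theorem measurableSet_joint {π : X → Y} (hπ : Measurable π) (J : Finset ℕ) :
    MeasurableSet {z : (ℕ → X) × X | z.1 ∈ NB π J z.2} := by
  have : {z : (ℕ → X) × X | z.1 ∈ NB π J z.2} = ⋂ j ∈ J, {z : (ℕ → X) × X | π (z.1 j) = π z.2}ᶜ := by
    ext z
    simp [NB, Set.mem_pi]
  rw [this]
  refine Finset.measurableSet_biInter _ fun j _ => MeasurableSet.compl ?_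
  exact measurableSet_eq_fun (hπ.comp ((measurable_pi_apply j).comp measurable_fst))
    (hπ.comp measurable_snd)

theorem measurable_nb {π : X → Y} (hπ : Measurable π) (J : Finset ℕ) :
    Measurable (fun z : (ℕ → X) × X => nb π J z.2 z.1) := by
  have : (fun z : (ℕ → X) × X => nb π J z.2 z.1) =
      {z : (ℕ → X) × X | z.1 ∈ NB π J z.2}.indicator (fun _ => (1 : ℝ)) := by
    ext z
    unfold nb Set.indicator
    rfl
  rw [this]
  exact measurable_const.indicator (measurableSet_joint hπ J)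

/-- Two boxes over disjoint index sets are independent. -/
theorem PR_inter {J J' : Finset ℕ} (hd : Disjoint J J') {t t' : ℕ → Set X}
    (ht : ∀ j, MeasurableSet (t j)) (ht' : ∀ j, MeasurableSet (t' j)) :
    (PR μ).real (Set.pi (J : Set ℕ) t ∩ Set.pi (J' : Set ℕ) t') =
      (PR μ).real (Set.pi (J : Set ℕ) t) * (PR μ).real (Set.pi (J' : Set ℕ) t') := by
  classical
  let h : ℕ → Set X := fun m => if m ∈ J then t m else t' m
  have hh : ∀ m, MeasurableSet (h m) := by
    intro m
    by_cases hm : m ∈ J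
    · simp only [h, hm, if_true]; exact ht m
    · simp only [h, hm, if_false]; exact ht' m
  have h1 : Set.pi (J : Set ℕ) t = Set.pi (J : Set ℕ) h := by
    apply Set.pi_congr rfl
    intro m hm
    have : m ∈ J := hm
    simp [h, this]
  have h2 : Set.pi (J' : Set ℕ) t' = Set.pi (J' : Set ℕ) h := by
    apply Set.pi_congr rfl
    intro m hm
    have : m ∉ J := fun h' => (Finset.disjoint_left.1 hd h') hm
    simp [h, this]
  rw [h1, h2, ← Set.union_pi, ← Finset.coe_union, PR_box _ _ _ fun j _ => hh j,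
    PR_box _ _ _ fun j _ => hh j, PR_box _ _ _ fun j _ => hh j, Finset.prod_union hd]

section cell

variable {π π' : X → Y} (hπ : Measurable π) (hπ' : Measurable π') {V : ℝ}
  (hV : ∀ x, μ.real {t | π t = π x} = V) {J J' : Finset ℕ} (hd : Disjoint J' J)

theorem V_bounds (hV : ∀ x, μ.real {t | π t = π x} = V) : 0 ≤ V ∧ V ≤ 1 := by
  have : Nonempty X := by
    by_contra h
    rw [not_nonempty_iff] at h
    have h1 : μ = 0 := by
      apply Measure.ext
      intro s _
      rw [Set.eq_empty_of_isEmpty s]; simp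
    have h2 : μ univ = 1 := measure_univ
    rw [h1] at h2
    simp at h2
  obtain ⟨x⟩ := this
  rw [← hV x]
  exact ⟨measureReal_nonneg, measureReal_le_one⟩

include hπ hV in
theorem meas_ne (x : X) : μ.real {t | π t ≠ π x} = 1 - V := by
  have h1 : {t | π t ≠ π x} = {t | π t = π x}ᶜ := rfl
  have m1 : MeasurableSet {t | π t = π x} := hπ (measurableSet_singleton _)
  rw [h1, probReal_compl_eq_one_sub m1, hV]

include hπ hV in
theorem PR_NB (x : X) : (PR μ).real (NB π J x) = (1 - V) ^ J.card := by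
  unfold NB
  rw [PR_box _ _ _ fun _ _ => measurableSet_ne hπ x]
  simp only [meas_ne hπ hV]
  rw [Finset.prod_const]

theorem NB_inter (x x' : X) : NB π J x ∩ NB π J x' =
    Set.pi (J : Set ℕ) (fun _ => {t | π t ≠ π x} ∩ {t | π t ≠ π x'}) := by
  unfold NB
  ext ω
  simp only [Set.mem_inter_iff, Set.mem_pi, Set.mem_ofPred_eq]
  constructor
  · intro h j hj; exact ⟨h.1 j hj, h.2 j hj⟩
  · intro h; exact ⟨fun j hj => (h j hj).1, fun j hj => (h j hj).2⟩

include hπ hV in
theorem PR_NB2 (x x' : X) (hne : π x ≠ π x') :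
    (PR μ).real (NB π J x ∩ NB π J x') ≤ (1 - V) ^ J.card * (1 - V) ^ J.card := by
  rw [NB_inter, PR_box _ _ _ fun _ _ => (measurableSet_ne hπ x).inter (measurableSet_ne hπ x')]
  have h1 : μ.real ({t | π t ≠ π x} ∩ {t | π t ≠ π x'}) = 1 - 2 * V := by
    have e : {t | π t ≠ π x} ∩ {t | π t ≠ π x'} = ({t | π t = π x} ∪ {t | π t = π x'})ᶜ := by
      ext t; simp
    have m1 : MeasurableSet {t | π t = π x} := hπ (measurableSet_singleton _)
    have m2 : MeasurableSet {t | π t = π x'} := hπ (measurableSet_singleton _)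
    have hdis : Disjoint {t | π t = π x} {t | π t = π x'} := by
      rw [Set.disjoint_left]
      intro t ht ht'
      exact hne (ht.symm.trans ht')
    rw [e, probReal_compl_eq_one_sub (m1.union m2), measureReal_union hdis m2, hV, hV]
    ring
  simp only [h1]
  rw [Finset.prod_const, ← mul_pow]
  have h0 : 0 ≤ 1 - 2 * V := by rw [← h1]; exact measureReal_nonneg
  apply pow_le_pow_left₀ h0
  nlinarith [(V_bounds hV).1]

/-- The centred variable. -/
noncomputable def av (π : X → Y) (J : Finset ℕ) (V : ℝ) (x : X) (ω : ℕ → X) : ℝ :=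
  nb π J x ω - (1 - V) ^ J.card

theorem q_bounds (hV : ∀ x, μ.real {t | π t = π x} = V) :
    0 ≤ (1 - V) ^ J.card ∧ (1 - V) ^ J.card ≤ 1 := by
  obtain ⟨h1, h2⟩ := V_bounds hV
  exact ⟨pow_nonneg (by linarith) _, pow_le_one₀ (by linarith) (by linarith)⟩

theorem q_ge (hV : ∀ x, μ.real {t | π t = π x} = V) :
    1 - (1 - V) ^ J.card ≤ J.card * V := by
  obtain ⟨h1, h2⟩ := V_bounds hV
  have := one_add_mul_le_pow (show (-2 : ℝ) ≤ -V by linarith) J.card
  have e : (1 : ℝ) + -V = 1 - V := by ring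
  rw [e] at this
  linarith

theorem integral_ind {s : Set (ℕ → X)} (hs : MeasurableSet s) :
    ∫ ω, s.indicator (fun _ => (1 : ℝ)) ω ∂(PR μ) = (PR μ).real s := by
  rw [integral_indicator hs]
  simp

open Classical in
include hπ hπ' hV hd in
/-- The key covariance estimate. -/
theorem cov (x x' : X) :
    ∫ ω, (nb π' J' x ω * av π J V x ω) * (nb π' J' x' ω * av π J V x' ω) ∂(PR μ) ≤
      if π x = π x' then 1 - (1 - V) ^ J.card else 0 := by
  obtain ⟨q, hq⟩ : ∃ q, q = (1 - V) ^ J.card := ⟨_, rfl⟩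
  have hqb := q_bounds (J := J) hV
  rw [← hq] at hqb ⊢
  obtain ⟨B, hB⟩ : ∃ B, B = NB π' J' x ∩ NB π' J' x' := ⟨_, rfl⟩
  have mB : MeasurableSet B := by
    rw [hB]; exact (measurableSet_NB hπ' J' x).inter (measurableSet_NB hπ' J' x')
  have mN := measurableSet_NB hπ J x
  have mN' := measurableSet_NB hπ J x'
  have hexp : ∀ ω, (nb π' J' x ω * av π J V x ω) * (nb π' J' x' ω * av π J V x' ω) =
      (B ∩ (NB π J x ∩ NB π J x')).indicator (fun _ => (1 : ℝ)) ω -
      q * (B ∩ NB π J x).indicator (fun _ => (1 : ℝ)) ω -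
      q * (B ∩ NB π J x').indicator (fun _ => (1 : ℝ)) ω +
      q ^ 2 * B.indicator (fun _ => (1 : ℝ)) ω := by
    intro ω
    unfold av nb
    rw [hB, ← hq]
    simp only [Set.indicator, Set.mem_inter_iff]
    by_cases h1 : ω ∈ NB π' J' x <;> by_cases h2 : ω ∈ NB π' J' x' <;>
      by_cases h3 : ω ∈ NB π J x <;> by_cases h4 : ω ∈ NB π J x' <;>
      simp [h1, h2, h3, h4] <;> ring
  have int1 : ∀ s : Set (ℕ → X), MeasurableSet s →
      Integrable (fun ω => s.indicator (fun _ => (1 : ℝ)) ω) (PR μ) :=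
    fun s hs => (integrable_const 1).indicator hs
  have e0 : ∫ ω, (nb π' J' x ω * av π J V x ω) * (nb π' J' x' ω * av π J V x' ω) ∂(PR μ) =
      (PR μ).real (B ∩ (NB π J x ∩ NB π J x')) - q * (PR μ).real (B ∩ NB π J x) -
      q * (PR μ).real (B ∩ NB π J x') + q ^ 2 * (PR μ).real B := by
    simp_rw [hexp]
    rw [integral_add, integral_sub, integral_sub, integral_const_mul, integral_const_mul,
      integral_const_mul, integral_ind (mB.inter (mN.inter mN')), integral_ind (mB.inter mN),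
      integral_ind (mB.inter mN'), integral_ind mB]
    · exact int1 _ (mB.inter (mN.inter mN'))
    · exact (int1 _ (mB.inter mN)).const_mul _
    · exact (int1 _ (mB.inter (mN.inter mN'))).sub ((int1 _ (mB.inter mN)).const_mul _)
    · exact (int1 _ (mB.inter mN')).const_mul _
    · exact ((int1 _ (mB.inter (mN.inter mN'))).sub ((int1 _ (mB.inter mN)).const_mul _)).sub
        ((int1 _ (mB.inter mN')).const_mul _)
    · exact (int1 _ mB).const_mul _
  rw [e0]
  -- independence
  have hBpi : B = Set.pi (J' : Set ℕ) (fun _ => {t | π' t ≠ π' x} ∩ {t | π' t ≠ π' x'}) := by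
    rw [hB, NB_inter]
  have mt : ∀ _ : ℕ, MeasurableSet ({t | π' t ≠ π' x} ∩ {t | π' t ≠ π' x'}) := fun _ =>
    (measurableSet_ne hπ' x).inter (measurableSet_ne hπ' x')
  have i1 : (PR μ).real (B ∩ NB π J x) = (PR μ).real B * (PR μ).real (NB π J x) := by
    rw [hBpi]; exact PR_inter hd mt fun _ => measurableSet_ne hπ x
  have i2 : (PR μ).real (B ∩ NB π J x') = (PR μ).real B * (PR μ).real (NB π J x') := by
    rw [hBpi]; exact PR_inter hd mt fun _ => measurableSet_ne hπ x'
  have i3 : (PR μ).real (B ∩ (NB π J x ∩ NB π J x')) =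
      (PR μ).real B * (PR μ).real (NB π J x ∩ NB π J x') := by
    rw [hBpi, NB_inter (π := π)]
    exact PR_inter hd mt fun _ => (measurableSet_ne hπ x).inter (measurableSet_ne hπ x')
  rw [i1, i2, i3, PR_NB hπ hV, PR_NB hπ hV, ← hq]
  have hBb : 0 ≤ (PR μ).real B ∧ (PR μ).real B ≤ 1 := ⟨measureReal_nonneg, measureReal_le_one⟩
  have e1 : (PR μ).real B * (PR μ).real (NB π J x ∩ NB π J x') - q * ((PR μ).real B * q) -
      q * ((PR μ).real B * q) + q ^ 2 * (PR μ).real B =
      (PR μ).real B * ((PR μ).real (NB π J x ∩ NB π J x') - q * q) := by ring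
  rw [e1]
  split_ifs with h
  · have h1 : NB π J x ∩ NB π J x' = NB π J x := by
      unfold NB; rw [h]; simp
    rw [h1, PR_NB hπ hV, ← hq]
    nlinarith [hBb.1, hBb.2, hqb.1, hqb.2, mul_nonneg hqb.1 (sub_nonneg.2 hqb.2)]
  · have h1 := PR_NB2 (J := J) hπ hV x x' h
    rw [← hq] at h1
    exact mul_nonpos_of_nonneg_of_nonpos hBb.1 (by linarith)

/-- `μ(N' ∩ N) - q μ(N')`. -/
noncomputable def Zf (μ : Measure X) (π' : X → Y) (J' : Finset ℕ) (π : X → Y) (J : Finset ℕ) (V : ℝ)
    (ω : ℕ → X) : ℝ := ∫ x, nb π' J' x ω * av π J V x ω ∂μ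

theorem av_bound (hV : ∀ x, μ.real {t | π t = π x} = V) (x : X) (ω : ℕ → X) :
    |av π J V x ω| ≤ 1 := by
  have h1 := nb_bound π J x ω
  have h2 := q_bounds (J := J) hV
  unfold av
  rw [abs_le]
  constructor <;> linarith [h1.1, h1.2, h2.1, h2.2]

theorem u_bound (hV : ∀ x, μ.real {t | π t = π x} = V) (x : X) (ω : ℕ → X) :
    |nb π' J' x ω * av π J V x ω| ≤ 1 := by
  rw [abs_mul]
  have h1 := nb_bound π' J' x ω
  have h2 := av_bound (J := J) hV x ω
  rw [abs_of_nonneg h1.1]
  have := abs_nonneg (av π J V x ω)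
  nlinarith [h1.1, h1.2]

include hπ hπ' in
theorem measurable_u : Measurable (fun z : (ℕ → X) × X => nb π' J' z.2 z.1 * av π J V z.2 z.1) :=
  (measurable_nb hπ' J').mul ((measurable_nb hπ J).sub_const _)

include hπ hπ' hV in
theorem measurable_Zf : Measurable (Zf μ π' J' π J V) := by
  unfold Zf
  exact ((measurable_u hπ hπ').stronglyMeasurable.integral_prod_right').measurable

include hπ hπ' hV hd in
theorem Zf_sq : ∫ ω, (Zf μ π' J' π J V ω) ^ 2 ∂(PR μ) ≤ (1 - (1 - V) ^ J.card) * V := by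
  classical
  have hmu := measurable_u (J := J) (J' := J') (V := V) hπ hπ'
  have h1 : ∀ ω, (Zf μ π' J' π J V ω) ^ 2 = ∫ z : X × X, (nb π' J' z.1 ω * av π J V z.1 ω) *
      (nb π' J' z.2 ω * av π J V z.2 ω) ∂(μ.prod μ) := by
    intro ω
    rw [integral_prod_mul (fun x => nb π' J' x ω * av π J V x ω)
      (fun x => nb π' J' x ω * av π J V x ω), sq]
    rfl
  simp_rw [h1]
  have hmeas : Measurable (Function.uncurry fun (ω : ℕ → X) (z : X × X) =>
      (nb π' J' z.1 ω * av π J V z.1 ω) * (nb π' J' z.2 ω * av π J V z.2 ω)) := by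
    have m1 : Measurable (fun w : (ℕ → X) × (X × X) => ((w.1, w.2.1) : (ℕ → X) × X)) := by fun_prop
    have m2 : Measurable (fun w : (ℕ → X) × (X × X) => ((w.1, w.2.2) : (ℕ → X) × X)) := by fun_prop
    exact (hmu.comp m1).mul (hmu.comp m2)
  have hint : Integrable (Function.uncurry fun (ω : ℕ → X) (z : X × X) =>
      (nb π' J' z.1 ω * av π J V z.1 ω) * (nb π' J' z.2 ω * av π J V z.2 ω))
      ((PR μ).prod (μ.prod μ)) := by
    refine Integrable.of_bound hmeas.aestronglyMeasurable 1 (Filter.Eventually.of_forall ?_)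
    rintro ⟨ω, z⟩
    simp only [Function.uncurry]
    rw [Real.norm_eq_abs, abs_mul]
    have a := u_bound (π' := π') (J' := J') (J := J) hV z.1 ω
    have b := u_bound (π' := π') (J' := J') (J := J) hV z.2 ω
    exact mul_le_one₀ a (abs_nonneg _) b
  rw [integral_integral_swap hint]
  have hsame : MeasurableSet {z : X × X | π z.1 = π z.2} :=
    measurableSet_eq_fun (hπ.comp measurable_fst) (hπ.comp measurable_snd)
  calc ∫ z : X × X, (∫ ω, (nb π' J' z.1 ω * av π J V z.1 ω) *
        (nb π' J' z.2 ω * av π J V z.2 ω) ∂(PR μ)) ∂(μ.prod μ)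
      ≤ ∫ z : X × X, {z : X × X | π z.1 = π z.2}.indicator
          (fun _ => (1 - (1 - V) ^ J.card)) z ∂(μ.prod μ) := by
        refine integral_mono hint.integral_prod_right ((integrable_const _).indicator hsame) ?_
        intro z
        have := cov hπ hπ' hV hd z.1 z.2
        by_cases h : π z.1 = π z.2
        · rw [if_pos h] at this
          rw [Set.indicator_of_mem (show z ∈ {z : X × X | π z.1 = π z.2} from h)]
          exact this
        · rw [if_neg h] at this
          rw [Set.indicator_of_notMem (show z ∉ {z : X × X | π z.1 = π z.2} from h)]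
          exact this
    _ = (1 - (1 - V) ^ J.card) * (μ.prod μ).real {z : X × X | π z.1 = π z.2} := by
        rw [integral_indicator hsame]
        simp [mul_comm]
    _ = (1 - (1 - V) ^ J.card) * V := by
        congr 1
        rw [Measure.real, Measure.prod_apply hsame]
        have h2 : ∀ x : X, μ (Prod.mk x ⁻¹' {z : X × X | π z.1 = π z.2}) = ENNReal.ofReal V := by
          intro x
          have e : Prod.mk x ⁻¹' {z : X × X | π z.1 = π z.2} = {t | π t = π x} := by
            ext t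
            simp only [Set.mem_preimage, Set.mem_ofPred_eq]
            exact eq_comm
          rw [e, ← hV x, Measure.real, ENNReal.ofReal_toReal (measure_ne_top _ _)]
        simp_rw [h2]
        simp [ENNReal.toReal_ofReal (V_bounds hV).1]

include hπ hπ' hV hd in
/-- The tail estimate. -/
theorem Zf_tail (hJ : 0 < J.card) (hV0 : 0 < V) {δ : ℝ} (hδ : 0 < δ) :
    (PR μ).real {ω | J.card * V * δ ≤ |Zf μ π' J' π J V ω|} ≤ 1 / (J.card * δ ^ 2) := by
  have hZm := measurable_Zf (J := J) (J' := J') hπ hπ' hV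
  have hZb : ∀ ω, |Zf μ π' J' π J V ω| ≤ 1 := by
    intro ω
    unfold Zf
    have h1 : ‖∫ x, nb π' J' x ω * av π J V x ω ∂μ‖ ≤ 1 * μ.real univ := by
      apply norm_integral_le_of_norm_le_const
      exact Filter.Eventually.of_forall fun x => u_bound hV x ω
    rw [Real.norm_eq_abs] at h1
    simpa using h1
  have hint : Integrable (fun ω => (Zf μ π' J' π J V ω) ^ 2) (PR μ) := by
    refine Integrable.of_bound (hZm.pow_const 2).aestronglyMeasurable 1
      (Filter.Eventually.of_forall fun ω => ?_)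
    rw [Real.norm_eq_abs, abs_pow]
    exact pow_le_one₀ (abs_nonneg _) (hZb ω)
  have hJr : (0 : ℝ) < J.card := by exact_mod_cast hJ
  have hmk := mul_meas_ge_le_integral_of_nonneg (μ := PR μ)
    (f := fun ω => (Zf μ π' J' π J V ω) ^ 2) (Filter.Eventually.of_forall fun ω => sq_nonneg _) hint
    ((J.card * V * δ) ^ 2)
  have hsub : {ω | J.card * V * δ ≤ |Zf μ π' J' π J V ω|} ⊆
      {ω | (J.card * V * δ) ^ 2 ≤ (Zf μ π' J' π J V ω) ^ 2} := by
    intro ω hω
    simp only [Set.mem_ofPred_eq] at hω ⊢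
    rw [← sq_abs (Zf μ π' J' π J V ω)]
    exact pow_le_pow_left₀ (by positivity) hω 2
  have h2 := hmk.trans (Zf_sq hπ hπ' hV hd)
  have h3 : (1 - (1 - V) ^ J.card) * V ≤ (J.card * V) * V :=
    mul_le_mul_of_nonneg_right (q_ge hV) hV0.le
  have h4 := (measureReal_mono (μ := PR μ) hsub)
  refine h4.trans ?_
  rw [le_div_iff₀ (by positivity)]
  have h5 : (J.card * V * δ) ^ 2 * (PR μ).real {ω | (J.card * V * δ) ^ 2 ≤
      (Zf μ π' J' π J V ω) ^ 2} ≤ (J.card * V) * V := h2.trans h3
  have h6 : (J.card * V * δ) ^ 2 * (PR μ).real {ω | (J.card * V * δ) ^ 2 ≤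
      (Zf μ π' J' π J V ω) ^ 2} = (J.card * V * V) * ((PR μ).real {ω | (J.card * V * δ) ^ 2 ≤
      (Zf μ π' J' π J V ω) ^ 2} * (J.card * δ ^ 2)) := by ring
  rw [h6] at h5
  have h7 : (0 : ℝ) < J.card * V * V := by positivity
  have h8 : J.card * V * V * ((PR μ).real {ω | (J.card * V * δ) ^ 2 ≤
      (Zf μ π' J' π J V ω) ^ 2} * (J.card * δ ^ 2)) ≤ J.card * V * V * 1 := by linarith
  exact le_of_mul_le_mul_left h8 h7

end cell

end

end Pool.Agent.Q3.RandK
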